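import Mathlib

set_option autoImplicit false

namespace Pool.Agent.Results.MP_0a0514_co.Counter

/-- `R` is a routing from `X` to `T` in the digraph `(V, A)` -/
def IsRouting (V : Finset ℕ) (A : Finset (ℕ × ℕ)) (T X : Finset ℕ) (R : Finset (List ℕ)) : Prop :=
  (∀ p ∈ R, p ≠ [] ∧ p.Nodup ∧ (∀ v ∈ p, v ∈ V) ∧ p.IsChain (fun a b => (a, b) ∈ A) ∧
    ∃ t ∈ T, p.getLast? = some t) ∧
  (∀ p ∈ R, ∀ q ∈ R, p ≠ q → ∀ v ∈ p, v ∉ q) ∧ ∀ x ∈ X, ∃ p ∈ R, p.head? = some x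

instance (V : Finset ℕ) (A : Finset (ℕ × ℕ)) (T X : Finset ℕ) (R : Finset (List ℕ)) :
    Decidable (IsRouting V A T X R) := by unfold IsRouting; infer_instance

/-- `((V, A), T, E)` with `E = {1, …, n}` is a standard representation of `U_{r,n}` -/
def StdRep (r n : ℕ) (V : Finset ℕ) (A : Finset (ℕ × ℕ)) (T : Finset ℕ) : Prop :=
  A ⊆ V ×ˢ V ∧ Finset.Icc 1 n ⊆ V ∧ T ⊆ Finset.Icc 1 n ∧ (∀ a ∈ A, a.1 ∉ T) ∧
  (∀ a ∈ A, a.2 ∉ Finset.Icc 1 n \ T) ∧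
  ∀ X ⊆ Finset.Icc 1 n, ((∃ R, IsRouting V A T X R) ↔ X.card ≤ r)

/-- arc-complexity of `U_{r,n}` -/
noncomputable def arcC (r n : ℕ) : ℕ := sInf {m | ∃ V A T, StdRep r n V A T ∧ A.card = m}

lemma card_le {V : Finset ℕ} {A : Finset (ℕ × ℕ)} {T X : Finset ℕ} {R : Finset (List ℕ)}
    (h : IsRouting V A T X R) : X.card ≤ T.card := by
  choose! p hp hx using h.2.2
  choose! t ht hl using fun q hq => (h.1 q hq).2.2.2.2
  refine Finset.card_le_card_of_injOn (fun x => t (p x)) (fun x hx => ht _ (hp x hx)) fun x a y b e => ?_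
  by_cases k : p x = p y
  · exact Option.some.inj ((hx x a).symm.trans (k ▸ hx y b))
  · exact (h.2.1 _ (hp x a) _ (hp y b) k _ (List.mem_of_getLast? (hl _ (hp x a)))
      (List.mem_of_getLast? ((hl _ (hp y b)).trans (congrArg some e.symm)))).elim

def arcs : Finset (ℕ × ℕ) := {(5, 4), (6, 2), (6, 3), (7, 1), (7, 3), (8, 1), (8, 2), (5, 9), (6, 9),
  (7, 9), (8, 9), (9, 1), (9, 2), (9, 3), (9, 4)}

def wit : List (Finset (List ℕ)) :=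
  [{[1], [2], [3], [4]},
  {[1], [2], [3], [5, 4]},
  {[1], [2], [3], [6, 9, 4]},
  {[1], [2], [3], [7, 9, 4]},
  {[1], [2], [3], [8, 9, 4]},
  {[1], [2], [4], [5, 9, 3]},
  {[1], [2], [4], [6, 3]},
  {[1], [2], [4], [7, 3]},
  {[1], [2], [4], [8, 9, 3]},
  {[1], [2], [5, 4], [6, 3]},
  {[1], [2], [5, 4], [7, 3]},
  {[1], [2], [5, 4], [8, 9, 3]},
  {[1], [2], [6, 3], [7, 9, 4]},
  {[1], [2], [6, 3], [8, 9, 4]},
  {[1], [2], [7, 3], [8, 9, 4]},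
  {[1], [3], [4], [5, 9, 2]},
  {[1], [3], [4], [6, 2]},
  {[1], [3], [4], [7, 9, 2]},
  {[1], [3], [4], [8, 2]},
  {[1], [3], [5, 4], [6, 2]},
  {[1], [3], [5, 4], [7, 9, 2]},
  {[1], [3], [5, 4], [8, 2]},
  {[1], [3], [6, 2], [7, 9, 4]},
  {[1], [3], [6, 2], [8, 9, 4]},
  {[1], [3], [7, 9, 4], [8, 2]},
  {[1], [4], [5, 9, 2], [6, 3]},
  {[1], [4], [5, 9, 2], [7, 3]},
  {[1], [4], [5, 9, 3], [8, 2]},
  {[1], [4], [6, 2], [7, 3]},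
  {[1], [4], [6, 2], [8, 9, 3]},
  {[1], [4], [7, 3], [8, 2]},
  {[1], [5, 4], [6, 2], [7, 3]},
  {[1], [5, 4], [6, 2], [8, 9, 3]},
  {[1], [5, 4], [7, 3], [8, 2]},
  {[1], [6, 2], [7, 3], [8, 9, 4]},
  {[2], [3], [4], [5, 9, 1]},
  {[2], [3], [4], [6, 9, 1]},
  {[2], [3], [4], [7, 1]},
  {[2], [3], [4], [8, 1]},
  {[2], [3], [5, 4], [6, 9, 1]},
  {[2], [3], [5, 4], [7, 1]},
  {[2], [3], [5, 4], [8, 1]},
  {[2], [3], [6, 9, 4], [7, 1]},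
  {[2], [3], [6, 9, 4], [8, 1]},
  {[2], [3], [7, 1], [8, 9, 4]},
  {[2], [4], [5, 9, 1], [6, 3]},
  {[2], [4], [5, 9, 1], [7, 3]},
  {[2], [4], [5, 9, 3], [8, 1]},
  {[2], [4], [6, 3], [7, 1]},
  {[2], [4], [6, 3], [8, 1]},
  {[2], [4], [7, 1], [8, 9, 3]},
  {[2], [5, 4], [6, 3], [7, 1]},
  {[2], [5, 4], [6, 3], [8, 1]},
  {[2], [5, 4], [7, 1], [8, 9, 3]},
  {[2], [6, 3], [7, 1], [8, 9, 4]},
  {[3], [4], [5, 9, 1], [6, 2]},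
  {[3], [4], [5, 9, 2], [7, 1]},
  {[3], [4], [5, 9, 1], [8, 2]},
  {[3], [4], [6, 2], [7, 1]},
  {[3], [4], [6, 2], [8, 1]},
  {[3], [4], [7, 1], [8, 2]},
  {[3], [5, 4], [6, 2], [7, 1]},
  {[3], [5, 4], [6, 2], [8, 1]},
  {[3], [5, 4], [7, 1], [8, 2]},
  {[3], [6, 2], [7, 1], [8, 9, 4]},
  {[4], [5, 9, 1], [6, 2], [7, 3]},
  {[4], [5, 9, 1], [6, 3], [8, 2]},
  {[4], [5, 9, 1], [7, 3], [8, 2]},
  {[4], [6, 2], [7, 1], [8, 9, 3]},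
  {[5, 4], [6, 2], [7, 1], [8, 9, 3]}]

lemma w1 : ∀ R ∈ wit, IsRouting (Finset.Icc 1 9) arcs (Finset.Icc 1 4) ∅ R := by decide +kernel

lemma w2 : ∀ X ∈ (Finset.Icc 1 8).powerset, X.card ≤ 4 → ∃ R ∈ wit, ∀ x ∈ X, ∃ p ∈ R, p.head? = some x := by
  decide +kernel

theorem result : (∃ V A T, StdRep 4 8 V A T ∧ A.card = 15) ∧ arcC 4 8 < 4 * (8 - 4) := by
  have h : ∃ V A T, StdRep 4 8 V A T ∧ A.card = 15 :=
    ⟨Finset.Icc 1 9, arcs, Finset.Icc 1 4, ⟨by decide +kernel, by decide +kernel, by decide +kernel,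
      by decide +kernel, by decide +kernel, fun X hX => ⟨fun ⟨R, h⟩ => card_le h, fun h =>
        (w2 X (Finset.mem_powerset.2 hX) h).imp fun R h => ⟨(w1 R h.1).1, (w1 R h.1).2.1, h.2⟩⟩⟩,
      by decide +kernel⟩
  exact ⟨h, (Nat.sInf_le h).trans_lt (by norm_num)⟩

end Pool.Agent.Results.MP_0a0514_co.Counter
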